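import Mathlib

namespace Pool.Agent.Results.MP_484523_pr.Triangles

def maj (a b c : Bool) : Bool := (a && b) || (a && c) || (b && c)

/-- `tr y t` is the configuration at time `t - 1` of NEC-voting started from `y` -/
def tr (y : ℤ × ℤ → Bool) : ℕ → ℤ × ℤ → Bool
  | 0 => y
  | t + 1 => fun p => maj (tr y t p) (tr y t (p.1 + 1, p.2)) (tr y t (p.1, p.2 + 1))

def IsAttractor (y : ℤ × ℤ → Bool) : Prop :=
  ∀ y' : ℤ × ℤ → Bool, {p | y' p ≠ y p}.Finite → {x : ℕ × ℤ × ℤ | tr y' x.1 x.2 ≠ tr y x.1 x.2}.Finite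

lemma fin (s s' : ℤ × ℤ → Bool) (h : {p | s' p ≠ s p}.Finite) (t : ℕ) :
    {p | tr s' t p ≠ tr s t p}.Finite := by
  induction t with
  | zero => exact h
  | succ t ih =>
    refine ((ih.union (ih.image fun p => (p.1 - 1, p.2))).union
      (ih.image fun p => (p.1, p.2 - 1))).subset ?_
    intro p hp
    by_contra hc
    simp only [Set.mem_union, Set.mem_image, Set.mem_ofPred, not_or, not_exists, not_and,
      not_not, not_imp_not] at hc
    obtain ⟨⟨a, b⟩, c⟩ := hc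
    exact hp (by simp only [tr, a, b (p.1 + 1, p.2) (by simp), c (p.1, p.2 + 1) (by simp)])

/-- an invariant half-plane condition together with an empty diagonal -/
lemma inv (y : ℤ × ℤ → Bool) (a c : ℤ)
    (h : ∀ p : ℤ × ℤ, y p = true → a ≤ p.1 ∧ a ≤ p.2 ∧ p.1 + p.2 ≠ c) (t : ℕ) :
    ∀ p : ℤ × ℤ, tr y t p = true → a ≤ p.1 ∧ a ≤ p.2 ∧ p.1 + p.2 + t ≠ c := by
  induction t with
  | zero => simpa [tr] using h
  | succ t ih =>
    intro p hp
    simp only [tr, maj, Bool.or_eq_true, Bool.and_eq_true] at hp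
    rcases hp with (⟨h1, h2⟩ | ⟨h1, h2⟩) | ⟨h1, h2⟩ <;> have := ih _ h1 <;> have := ih _ h2 <;>
      simp only at * <;> omega

lemma above (y y' : ℤ × ℤ → Bool) (a c : ℤ)
    (h : ∀ p : ℤ × ℤ, y p = true → a ≤ p.1 ∧ a ≤ p.2 ∧ p.1 + p.2 ≠ c)
    (h' : ∀ p : ℤ × ℤ, y' p = true → a ≤ p.1 ∧ a ≤ p.2 ∧ p.1 + p.2 ≠ c)
    (e : ∀ p : ℤ × ℤ, c ≤ p.1 + p.2 → y' p = y p) (t : ℕ) :
    ∀ p : ℤ × ℤ, c ≤ p.1 + p.2 + t → tr y' t p = tr y t p := by
  induction t with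
  | zero => simpa [tr] using e
  | succ t ih =>
    intro p hp
    by_cases hc : p.1 + p.2 + (t + 1 : ℕ) = c
    · rw [Bool.eq_iff_iff]
      exact iff_of_false (fun x => (inv _ a c h' _ p x).2.2 hc) fun x => (inv _ a c h _ p x).2.2 hc
    · simp only [tr]
      rw [ih p (by omega), ih (p.1 + 1, p.2) (by simp only; omega), ih (p.1, p.2 + 1) (by simp only; omega)]

lemma tri (y : ℤ × ℤ → Bool) (a c : ℤ)
    (h : ∀ p : ℤ × ℤ, a ≤ p.1 → 0 ≤ p.2 → p.1 + p.2 ≤ c → y p = true) (t : ℕ) :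
    ∀ p : ℤ × ℤ, a ≤ p.1 → 0 ≤ p.2 → p.1 + p.2 + t ≤ c → tr y t p = true := by
  induction t with
  | zero => simpa [tr] using h
  | succ t ih =>
    intro p h1 h2 h3
    simp only [tr]
    rw [ih p h1 h2 (by omega), ih (p.1 + 1, p.2) (by simp only; omega) h2 (by simp only; omega)]
    rfl

open Classical in
noncomputable def w (p : ℤ × ℤ) : Bool :=
  decide (∃ n : ℕ, (n : ℤ) ^ 2 ≤ p.1 ∧ 0 ≤ p.2 ∧ p.1 + p.2 ≤ n ^ 2 + n)

lemma gap (m : ℕ) (p : ℤ × ℤ) (h : w p = true) :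
    0 ≤ p.1 ∧ 0 ≤ p.2 ∧ p.1 + p.2 ≠ (m + 1) ^ 2 + (m + 1) + 1 := by
  classical
  obtain ⟨n, h1, h2, h3⟩ := of_decide_eq_true h
  refine ⟨by nlinarith, h2, fun e => ?_⟩
  rcases le_or_gt (n : ℤ) (m + 1) with h | h <;> nlinarith

theorem result : ∃ y : ℤ × ℤ → Bool, IsAttractor y ∧
    ∀ t, {p | tr y t p = true}.Infinite ∧ {p | tr y t p = false}.Infinite := by
  classical
  refine ⟨w, fun s h => ?_, fun t => ⟨?_, ?_⟩⟩
  · obtain ⟨M, hM⟩ := (h.image fun p => |p.1| + |p.2|).bddAbove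
    obtain ⟨N, hMN⟩ : ∃ N : ℕ, M ≤ N := ⟨M.toNat, Int.self_le_toNat M⟩
    have hN : ∀ p : ℤ × ℤ, N < |p.1| + |p.2| → s p = w p := fun p hp => by
      by_contra hc
      have : |p.1| + |p.2| ≤ M := hM ⟨p, hc, rfl⟩
      omega
    obtain ⟨c, hc, hg⟩ : ∃ c : ℕ, N < c ∧ ∀ p, w p = true → 0 ≤ p.1 ∧ 0 ≤ p.2 ∧ p.1 + p.2 ≠ c :=
      ⟨(N + 1) ^ 2 + (N + 1) + 1, by omega, fun p hp => by simpa using gap N p hp⟩
    have h1 : ∀ p : ℤ × ℤ, w p = true → -N ≤ p.1 ∧ -N ≤ p.2 ∧ p.1 + p.2 ≠ c := fun p hp => by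
      have := hg p hp; omega
    have h2 : ∀ p : ℤ × ℤ, s p = true → -N ≤ p.1 ∧ -N ≤ p.2 ∧ p.1 + p.2 ≠ c := fun p hp => by
      by_cases hb : N < |p.1| + |p.2|
      · exact h1 p (hN p hb ▸ hp)
      · simp only [abs] at hb; omega
    refine ((Set.finite_Iio (2 * N + c)).biUnion fun t _ =>
      (fin w s h t).image (Prod.mk t)).subset fun x hx => ?_
    refine Set.mem_biUnion (x := x.1) (Set.mem_Iio.2 (not_le.1 fun ht => hx ?_)) ⟨x.2, hx, rfl⟩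
    by_cases hb : c ≤ x.2.1 + x.2.2 + x.1
    · exact above w s _ c h1 h2 (fun p hp => hN p (by simp only [abs]; omega)) _ _ hb
    · rw [Bool.eq_iff_iff]
      exact iff_of_false (fun e => by have := inv _ _ _ h2 _ _ e; omega)
        fun e => by have := inv _ _ _ h1 _ _ e; omega
  · refine Set.infinite_of_injective_forall_mem (f := fun n : ℕ => ((((n + t : ℕ) : ℤ) ^ 2, (0 : ℤ))))
      (fun a b h => by simpa [sq_eq_sq₀, add_nonneg] using h) fun n => ?_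
    exact tri w ((n + t : ℕ) ^ 2) ((n + t : ℕ) ^ 2 + (n + t : ℕ))
      (fun p h1 h2 h3 => decide_eq_true ⟨_, h1, h2, h3⟩) t _ le_rfl le_rfl (by simp)
  · refine Set.infinite_of_injective_forall_mem (f := fun n : ℕ => ((0 : ℤ), (-n - 1 : ℤ)))
      (fun a b h => by simpa using h) fun n => ?_
    by_contra hc
    have := inv w 0 _ (gap 0) t _ (Bool.eq_true_of_not_eq_false hc)
    simp only at this
    omega

end Pool.Agent.Results.MP_484523_pr.Triangles
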